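import Pool.Agent.Y691.TU.Defs

/-!
# Periods of pure motives and motivic Galois groups: definitions
-/

set_option autoImplicit false

open CategoryTheory CategoryTheory.Limits AlgebraicGeometry TensorProduct

namespace Pool.Agent.Y107.GP

open Pool.Agent.Y116.UV Pool.Agent.Y101.Th Pool.Agent.Y691.TU

universe v u

/-- The objects generated by the objects of the list `l` under finite direct sums, direct summands
and Tate twists (`L` is the twist `A ↦ A(-1)`). -/
inductive Generates {C : Type u} [Category.{v} C] [Abelian C] (L : C ⥤ C) (l : List C) : C → Prop
  | mem (A : C) : A ∈ l → Generates L l A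
  | zero (A : C) : IsZero A → Generates L l A
  | sum (A B : C) : Generates L l A → Generates L l B → Generates L l (A ⊞ B)
  | summand (A B : C) (s : A ⟶ B) (r : B ⟶ A) : s ≫ r = 𝟙 A → Generates L l B → Generates L l A
  | twist (A : C) : Generates L l A → Generates L l (L.obj A)
  | untwist (A : C) : Generates L l (L.obj A) → Generates L l A

/-- Data: the de Rham realisation (vector spaces over `k ⊆ ℂ`) and the Betti realisation (vector
spaces over `ℚ`) of the motives in `C`, the comparison isomorphisms over `ℂ`, and the dimension
`galDim [M_1, …, M_r]` of the motivic Galois group of `M_1 ⊕ … ⊕ M_r`. -/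
structure PeriodData (k : Type) [Field k] [Algebra k ℂ] (C : Type u) [Category.{v} C] where
  /-- the de Rham realisation -/
  dR : C ⥤ ModuleCat.{0} k
  /-- the Betti realisation -/
  betti : C ⥤ ModuleCat.{0} ℚ
  /-- the comparison isomorphism -/
  comparison : ∀ M : C, (ℂ ⊗[k] dR.obj M) ≃ₗ[ℂ] (ℂ ⊗[ℚ] betti.obj M)
  /-- the dimension of the motivic Galois group -/
  galDim : List C → ℕ

namespace PeriodData

variable {k : Type} [Field k] [Algebra k ℂ] {C : Type u} [Category.{v} C] (P : PeriodData k C)

/-- The periods of the motive `M`: the numbers `φ (comparison (v))` for `v` in the de Rham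
realisation and `φ` a linear form over `ℚ` on the Betti realisation. -/
def periods (M : C) : Set ℂ :=
  {z | ∃ (v : P.dR.obj M) (φ : P.betti.obj M →ₗ[ℚ] ℚ),
    z = TensorProduct.rid ℚ ℂ (φ.baseChange ℂ (P.comparison M (1 ⊗ₜ v)))}

/-- The field generated over `k` by the periods of the motives of the list `l`. -/
noncomputable def periodField (l : List C) : IntermediateField k ℂ :=
  IntermediateField.adjoin k {z | ∃ M ∈ l, z ∈ P.periods M}

/-- The transcendence degree of the field of periods. -/
noncomputable def periodDegree (l : List C) : Cardinal := Algebra.trdeg k (P.periodField l)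

/-- Grothendieck's period conjecture (weak form) for the direct sum of the motives of the list `l`:
the transcendence degree of the field of periods is the dimension of the motivic Galois group. -/
def PeriodConjecture (l : List C) : Prop := P.periodDegree l = P.galDim l

end PeriodData

variable {k : Type} [Field k] {C : Type u} [Category.{v} C] [Abelian C]

/-- The Tate motive `1(-1)` is a direct summand of a member of the list `l`. -/
def HasTate (D : Graded k C) (l : List C) : Prop :=
  ∃ B ∈ l, ∃ (s : D.L.obj D.one ⟶ B) (r : B ⟶ D.L.obj D.one), s ≫ r = 𝟙 _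

/-- The cohomology `H^0(X), …, H^(2n)(X)` of the smooth projective scheme `X` of dimension `n`. -/
def cohomology (D : Graded k C) (X : Sch k) (n : ℕ) : List C :=
  (List.range (2 * n + 1)).map fun i => D.H X i i

/-- Known properties of periods: the transcendence degree is at most the dimension of the motivic
Galois group; and if `l` contains the Tate motive and generates the members of `l'` then
`dim G(l') + trdeg(l) ≤ dim G(l) + trdeg(l')` (the torsor of periods of `l` maps onto the torsor of
periods of `l'`, with fibres of dimension `dim G(l) - dim G(l')`). -/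
structure IsPeriodData [Algebra k ℂ] (D : Graded k C) (P : PeriodData k C) : Prop where
  le : ∀ l : List C, P.periodDegree l ≤ P.galDim l
  torsor : ∀ l l' : List C, HasTate D l → (∀ A ∈ l', Generates D.L l A) →
    (P.galDim l' : Cardinal) + P.periodDegree l ≤ P.galDim l + P.periodDegree l'

/-- Known property (Kunneth formula, hyperplane classes): for all smooth projective schemes
`Y_1, …, Y_r` there is an irreducible smooth projective scheme `X` (a component of the product of
components of the `Y_s` and of a projective line) such that the Tate motive is a direct summand of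
the cohomology of `X` and the cohomology of `X` generates the cohomology of all `Y_s`. -/
def Dominated (D : Graded k C) : Prop :=
  ∀ l : List (Sch k), (∀ Y ∈ l, SmProj Y) → ∃ (X : Sch k) (n : ℕ), SmProj X ∧
    IrreducibleSpace X.left ∧ topologicalKrullDim X.left = n ∧ HasTate D (cohomology D X n) ∧
      ∀ Y ∈ l, ∀ i : ℤ, Generates D.L (cohomology D X n) (D.H Y i i)

/-- Grothendieck's period conjecture (weak form) for all irreducible smooth projective schemes. -/
def PeriodConjectureForAll [Algebra k ℂ] (D : Graded k C) (P : PeriodData k C) : Prop :=
  ∀ (X : Sch k) (n : ℕ), SmProj X → IrreducibleSpace X.left → topologicalKrullDim X.left = n →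
    P.PeriodConjecture (cohomology D X n)

/-- `A` is the cohomology `H^i(X)` of a smooth projective scheme of dimension at most `n`. -/
def SmoothPiece (D : Graded k C) (n : ℕ) (A : C) : Prop :=
  ∃ (X : Sch k) (i : ℤ), SmProj X ∧ topologicalKrullDim X.left ≤ n ∧ A = D.H X i i

/-- `A` is a piece `gr^W_w H^j_c` of the affine cubic hypersurface `t(x, y, z) = 1`, for a trilinear
form `t` in three blocks of variables. -/
def CubicPiece (D : Graded k C) (A : C) : Prop :=
  ∃ (a b c : ℕ) (t : Fin a → Fin b → Fin c → k) (w j : ℤ), A = D.H (hypS t) w j

/-- The same, for trilinear forms with a block of at most `m` variables. -/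
def CubicPieceLe (D : Graded k C) (m : ℕ) (A : C) : Prop :=
  ∃ (a b c : ℕ) (t : Fin a → Fin b → Fin c → k) (w j : ℤ), (a ≤ m ∨ b ≤ m ∨ c ≤ m) ∧
    A = D.H (hypS t) w j

/-- The same, for trilinear forms with coefficients `0` and `1`. -/
def ZeroOneCubicPiece (D : Graded k C) (A : C) : Prop :=
  ∃ (a b c : ℕ) (S : Finset (Fin a × Fin b × Fin c)) (w j : ℤ), A = D.H (tripS k S) w j

/-- The period conjecture for all finite direct sums of motives with the property `S`, together with
the Tate motive. -/
def ForSumsOf [Algebra k ℂ] (D : Graded k C) (P : PeriodData k C) (S : C → Prop) : Prop :=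
  ∀ l : List C, (∀ A ∈ l, S A) → P.PeriodConjecture (D.L.obj D.one :: l)

end Pool.Agent.Y107.GP
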