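import Pool.Agent.Y107.GP.Defs
import Pool.Agent.Y691.TU.Main

/-!
# The period conjecture and cubic hypersurfaces
-/

set_option autoImplicit false

open CategoryTheory CategoryTheory.Limits AlgebraicGeometry TensorProduct

namespace Pool.Agent.Y107.GP

open Pool.Agent.Y116.UV Pool.Agent.Y101.Th Pool.Agent.Y691.TU Pool.Agent.Z125.UN

universe v u

section gen

variable {C : Type u} [Category.{v} C] [Abelian C] {L : C ⥤ C} {l l' : List C} {A : C}

lemma Generates.trans (h : Generates L l A) (hl : ∀ B ∈ l, Generates L l' B) :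
    Generates L l' A := by
  induction h with
  | mem A hA => exact hl A hA
  | zero A hA => exact .zero A hA
  | sum A B _ _ h1 h2 => exact .sum A B h1 h2
  | summand A B s r hs _ h1 => exact .summand A B s r hs h1
  | twist A _ h1 => exact .twist A h1
  | untwist A _ h1 => exact .untwist A h1

lemma Generates.mono (h : Generates L l A) (hl : ∀ B ∈ l, B ∈ l') : Generates L l' A :=
  h.trans fun B hB => .mem B (hl B hB)

end gen

section

variable {k : Type} [Field k] {C : Type u} [Category.{v} C] [Abelian C] {D : Graded k C}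

/-- `A` is generated by the unit motive and finitely many motives with the property `S`. -/
def Span (D : Graded k C) (S : C → Prop) (A : C) : Prop :=
  ∃ l : List C, (∀ B ∈ l, S B) ∧ Generates D.L (D.one :: l) A

lemma span_stable (S : C → Prop) : Stable D (fun _ => Span D S) where
  zero _ A hA := ⟨[], by simp, .zero A hA⟩
  sum _ A B hA hB := by
    obtain ⟨l, hl, h1⟩ := hA
    obtain ⟨l', hl', h2⟩ := hB
    refine ⟨l ++ l', fun B hB => ?_, .sum A B (h1.mono fun E hE => ?_) (h2.mono fun E hE => ?_)⟩
    · rcases List.mem_append.1 hB with h | h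
      · exact hl B h
      · exact hl' B h
    · rcases List.mem_cons.1 hE with h | h
      · exact List.mem_cons.2 (Or.inl h)
      · exact List.mem_cons.2 (Or.inr (List.mem_append.2 (Or.inl h)))
    · rcases List.mem_cons.1 hE with h | h
      · exact List.mem_cons.2 (Or.inl h)
      · exact List.mem_cons.2 (Or.inr (List.mem_append.2 (Or.inr h)))
  summand _ A B s r hs hB := by
    obtain ⟨l, hl, h1⟩ := hB
    exact ⟨l, hl, .summand A B s r hs h1⟩
  twist _ A := by
    constructor
    · rintro ⟨l, hl, h1⟩
      exact ⟨l, hl, .untwist A h1⟩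
    · rintro ⟨l, hl, h1⟩
      exact ⟨l, hl, .twist A h1⟩
  unit := ⟨[], by simp, .mem _ (List.mem_cons_self)⟩

lemma span_of {S : C → Prop} {A : C} (h : S A) : Span D S A :=
  ⟨[A], by simpa using h, .mem A (by simp)⟩

lemma collect {S : C → Prop} (l : List C) (h : ∀ A ∈ l, Span D S A) :
    ∃ l' : List C, (∀ B ∈ l', S B) ∧ ∀ A ∈ l, Generates D.L (D.one :: l') A := by
  induction l with
  | nil => exact ⟨[], by simp, by simp⟩
  | cons A l ih =>
    obtain ⟨l1, h1, h2⟩ := ih fun B hB => h B (List.mem_cons_of_mem _ hB)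
    obtain ⟨l2, h3, h4⟩ := h A List.mem_cons_self
    refine ⟨l1 ++ l2, fun B hB => ?_, fun B hB => ?_⟩
    · rcases List.mem_append.1 hB with h | h
      · exact h1 B h
      · exact h3 B h
    · rcases List.mem_cons.1 hB with h | h
      · rw [h]
        refine h4.mono fun E hE => ?_
        rcases List.mem_cons.1 hE with h | h
        · exact List.mem_cons.2 (Or.inl h)
        · exact List.mem_cons.2 (Or.inr (List.mem_append.2 (Or.inr h)))
      · refine (h2 B h).mono fun E hE => ?_
        rcases List.mem_cons.1 hE with h | h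
        · exact List.mem_cons.2 (Or.inl h)
        · exact List.mem_cons.2 (Or.inr (List.mem_append.2 (Or.inl h)))

/-- The Tate motive generates the unit motive. -/
lemma gen_tate {l : List C} {A : C} (h : Generates D.L (D.one :: l) A) :
    Generates D.L (D.L.obj D.one :: l) A := by
  refine h.trans fun B hB => ?_
  rcases List.mem_cons.1 hB with h | h
  · rw [h]
    exact .untwist _ (.mem _ List.mem_cons_self)
  · exact .mem _ (List.mem_cons_of_mem _ h)

lemma hasTate_cons (l : List C) : HasTate D (D.L.obj D.one :: l) :=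
  ⟨_, List.mem_cons_self, 𝟙 _, 𝟙 _, Category.comp_id _⟩

lemma HasTate.gen {l : List C} (h : HasTate D l) : Generates D.L l (D.L.obj D.one) := by
  obtain ⟨B, hB, s, r, hs⟩ := h
  exact .summand _ B s r hs (.mem B hB)

variable [Algebra k ℂ] {P : PeriodData k C}

/-- The conjecture is inherited by the motives which are generated. -/
lemma transfer (hP : IsPeriodData D P) {l l' : List C} (ht : HasTate D l)
    (h : ∀ A ∈ l', Generates D.L l A) (hl : P.PeriodConjecture l) : P.PeriodConjecture l' := by
  have h1 := hP.torsor l l' ht h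
  have h2 := hP.le l'
  unfold PeriodData.PeriodConjecture at hl ⊢
  rw [hl] at h1
  obtain ⟨m, hm⟩ := Cardinal.lt_aleph0.1 (h2.trans_lt (Cardinal.natCast_lt_aleph0))
  rw [hm] at h1 h2 ⊢
  norm_cast at h1 h2 ⊢
  omega

lemma sums_of (hP : IsPeriodData D P) {S S' : C → Prop} (h : ∀ A, S' A → Span D S A)
    (hS : ForSumsOf D P S) : ForSumsOf D P S' := by
  intro l hl
  obtain ⟨l', h1, h2⟩ := collect l fun A hA => h A (hl A hA)
  refine transfer hP (hasTate_cons l') (fun A hA => ?_) (hS l' h1)
  rcases List.mem_cons.1 hA with h | h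
  · rw [h]
    exact .mem _ List.mem_cons_self
  · exact gen_tate (h2 A h)

lemma of_sums (hP : IsPeriodData D P) {S : C → Prop}
    (h : ∀ X : Sch k, SmProj X → ∀ i, Span D S (D.H X i i)) (hS : ForSumsOf D P S) :
    PeriodConjectureForAll D P := by
  intro X n hX _ _
  obtain ⟨l', h1, h2⟩ := collect (S := S) (cohomology D X n) fun A hA => by
    obtain ⟨i, -, rfl⟩ := List.mem_map.1 hA
    exact h X hX i
  exact transfer hP (hasTate_cons l') (fun A hA => gen_tate (h2 A hA)) (hS l' h1)

/-- The property: to be the cohomology of a smooth projective scheme. -/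
def AnySmooth (D : Graded k C) (A : C) : Prop :=
  ∃ (X : Sch k) (i : ℤ), SmProj X ∧ A = D.H X i i

lemma schemes (l : List C) (h : ∀ A ∈ l, AnySmooth D A) :
    ∃ s : List (Sch k), (∀ Y ∈ s, SmProj Y) ∧ ∀ A ∈ l, ∃ Y ∈ s, ∃ i : ℤ, A = D.H Y i i := by
  induction l with
  | nil => exact ⟨[], by simp, by simp⟩
  | cons A l ih =>
    obtain ⟨s, h1, h2⟩ := ih fun B hB => h B (List.mem_cons_of_mem _ hB)
    obtain ⟨X, i, hX, hA⟩ := h A List.mem_cons_self
    refine ⟨X :: s, fun Y hY => ?_, fun B hB => ?_⟩
    · rcases List.mem_cons.1 hY with h | h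
      · rw [h]
        exact hX
      · exact h1 Y h
    · rcases List.mem_cons.1 hB with h | h
      · exact ⟨X, List.mem_cons_self, i, by rw [h, hA]⟩
      · obtain ⟨Y, hY, j, hj⟩ := h2 B h
        exact ⟨Y, List.mem_cons_of_mem _ hY, j, hj⟩

lemma sums_of_all (hP : IsPeriodData D P) (hdom : Dominated D) {S : C → Prop}
    (h : ∀ A, S A → Span D (AnySmooth D) A) (hall : PeriodConjectureForAll D P) :
    ForSumsOf D P S := by
  intro l hl
  obtain ⟨l', h1, h2⟩ := collect l fun A hA => h A (hl A hA)
  obtain ⟨s, h3, h4⟩ := schemes l' h1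
  obtain ⟨X, n, hX, hirr, hdim, htate, h5⟩ := hdom s h3
  have h6 : Generates D.L (cohomology D X n) D.one := .untwist _ htate.gen
  refine transfer hP htate (fun A hA => ?_) (hall X n hX hirr hdim)
  rcases List.mem_cons.1 hA with h | h
  · rw [h]
    exact htate.gen
  · refine (h2 A h).trans fun B hB => ?_
    rcases List.mem_cons.1 hB with h' | h'
    · rw [h']
      exact h6
    · obtain ⟨Y, hY, i, rfl⟩ := h4 B h'
      exact h5 Y hY i

/-- The period conjecture for all irreducible smooth projective schemes and for cubics. -/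
theorem all_iff [PerfectField k] (hk : Resolution k) (hC : Semisimple C) (hD : IsGraded D)
    (hP : IsPeriodData D P) (hdom : Dominated D) :
    PeriodConjectureForAll D P ↔ ForSumsOf D P (CubicPiece D) := by
  constructor
  · refine sums_of_all hP hdom ?_
    rintro A ⟨a, b, c, t, w, j, rfl⟩
    exact (cubic_all hk hC hD (span_stable (AnySmooth D))).mp
      (fun X hX i => span_of ⟨X, i, hX, rfl⟩) a b c t w j
  · refine of_sums hP ?_
    exact (cubic_all hk hC hD (span_stable (CubicPiece D))).mpr
      fun a b c t w j => span_of ⟨a, b, c, t, w, j, rfl⟩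

/-- Dimension by dimension. -/
theorem dim_iff [PerfectField k] (hk : Resolution k) (hC : Semisimple C) (hD : IsGraded D)
    (hP : IsPeriodData D P) (n : ℕ) :
    ForSumsOf D P (SmoothPiece D n) ↔ ForSumsOf D P (CubicPieceLe D (n + 2)) := by
  constructor
  · refine sums_of hP ?_
    rintro A ⟨a, b, c, t, w, j, hm, rfl⟩
    exact (cubic_dim hk hC hD (span_stable (SmoothPiece D n)) n).mp
      (fun X hX hd i => span_of ⟨X, i, hX, hd, rfl⟩) a b c t hm w j
  · refine sums_of hP ?_
    rintro A ⟨X, i, hX, hd, rfl⟩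
    exact (cubic_dim hk hC hD (span_stable (CubicPieceLe D (n + 2))) n).mpr
      (fun a b c t hm w j => span_of ⟨a, b, c, t, w, j, hm, rfl⟩) X hX hd i

/-- Coefficients `0` and `1`. -/
theorem frac_iff [PerfectField k] (hf : IsFrac k) (hk : Resolution k) (hC : Semisimple C)
    (hD : IsGraded D) (hP : IsPeriodData D P) (hdom : Dominated D) :
    PeriodConjectureForAll D P ↔ ForSumsOf D P (ZeroOneCubicPiece D) := by
  constructor
  · refine sums_of_all hP hdom ?_
    rintro A ⟨a, b, c, S, w, j, rfl⟩
    exact (cubic_frac hf hk hC hD (span_stable (AnySmooth D))).mp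
      (fun X hX i => span_of ⟨X, i, hX, rfl⟩) a b c S w j
  · refine of_sums hP ?_
    exact (cubic_frac hf hk hC hD (span_stable (ZeroOneCubicPiece D))).mpr
      fun a b c S w j => span_of ⟨a, b, c, S, w, j, rfl⟩

end

end Pool.Agent.Y107.GP
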